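import Pool.Agent.Helper89.FF.Main

/-!
# Packing convex sets of unit perimeter into a disk: families with members far from the disks

With `κ = √(√3 / (2 * π ^ 3))`, every closed disk of radius at least
`κ √(k - c m) + C k ^ (1 / 3)` accommodates every family of `k` convex sets of perimeter `1` of
which `m` have Hausdorff distance at least `ε` from every disk of perimeter `1`; here `c > 0` and
`C` depend only on `ε`, and `c ≤ 1 / 2`. A disk which accommodates `k` disks of perimeter `1` has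
radius at least `κ √k - 1 / 40`. Hence `(P_k)` is true, for every `k`, in the class of the families
with at least `C k ^ (5 / 6)` members far from the disks.
-/

namespace Pool.Agent.Results.MP_0e91ac_co.FarFamilies

open Pool.Agent.Helper16.Disk7 Pool.Agent.Helper79.PK Pool.Agent.Helper89.FF Metric Filter

/-- Families of `k` convex sets of perimeter `1` with members far from the disks.

1. For every `ε > 0` there are `0 < c ≤ 1 / 2` and `C > 0` such that for all `k ≥ 1` every closed
   disk of radius at least `κ √(k - c m) + C k ^ (1 / 3)` accommodates every family of `k` convex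
   sets of perimeter `1`, where `m` is the number of members at Hausdorff distance at least `ε`
   from all disks of perimeter `1`.
2. For all `k ≥ 1` every closed disk of radius at least `κ √k + 11000 k ^ (1 / 3)` accommodates
   every family of `k` convex sets of perimeter `1`.
3. For all `k ≥ 1` every closed disk which accommodates `k` disks of perimeter `1` has radius at
   least `κ √k - 1 / 40`.
4. For every `ε > 0` there is `C > 0` such that for all `k ≥ 1` every closed disk which
   accommodates `k` disks of perimeter `1` accommodates every family of `k` convex sets of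
   perimeter `1` of which at least `C k ^ (5 / 6)` have Hausdorff distance at least `ε` from all
   disks of perimeter `1`.
5. For every convex set `K` of perimeter `1` which is not a disk there is `k₀` such that for all
   `k ≥ k₀` every closed disk which accommodates `k` disks of perimeter `1` accommodates `k` copies
   of `K`.
6. `ρ_k ≤ R_k ≤ ρ_k + 11001 k ^ (1 / 3)` for all `k ≥ 1`.
7. `ρ_k / √k → κ`, `R_k / √k → κ` and `R_k / ρ_k → 1`. -/
theorem result :
    (∀ ε : ℝ, 0 < ε → ∃ c C : ℝ, 0 < c ∧ c ≤ 1 / 2 ∧ 0 < C ∧ ∀ k : ℕ, 1 ≤ k →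
      ∀ K : Fin k → Set ℂ, (∀ i, IsUnitConvexSet (K i)) → ∀ (z : ℂ) (R : ℝ),
      √(√3 / (2 * Real.pi ^ 3)) * √((k : ℝ) - c * (Nat.card {i : Fin k // Far ε (K i)} : ℝ)) +
        C * (k : ℝ) ^ (1 / 3 : ℝ) ≤ R → Accommodates (closedBall z R) K) ∧
    (∀ k : ℕ, 1 ≤ k → ∀ (z : ℂ) (R : ℝ),
      √(√3 / (2 * Real.pi ^ 3)) * √(k : ℝ) + 11000 * (k : ℝ) ^ (1 / 3 : ℝ) ≤ R →
      ∀ K : Fin k → Set ℂ, (∀ i, IsUnitConvexSet (K i)) → Accommodates (closedBall z R) K) ∧
    (∀ k : ℕ, 1 ≤ k → ∀ (z : ℂ) (R : ℝ),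
      Accommodates (closedBall z R)
        (fun _ : Fin k => closedBall (0 : ℂ) (1 / (2 * Real.pi))) →
      √(√3 / (2 * Real.pi ^ 3)) * √(k : ℝ) - 1 / 40 ≤ R) ∧
    (∀ ε : ℝ, 0 < ε → ∃ C : ℝ, 0 < C ∧ ∀ k : ℕ, 1 ≤ k → ∀ K : Fin k → Set ℂ,
      (∀ i, IsUnitConvexSet (K i)) →
      C * (k : ℝ) ^ (5 / 6 : ℝ) ≤ (Nat.card {i : Fin k // Far ε (K i)} : ℝ) →
      ∀ (z : ℂ) (R : ℝ), Accommodates (closedBall z R)
        (fun _ : Fin k => closedBall (0 : ℂ) (1 / (2 * Real.pi))) →
      Accommodates (closedBall z R) K) ∧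
    (∀ K : Set ℂ, IsUnitConvexSet K → (∀ c : ℂ, K ≠ closedBall c (1 / (2 * Real.pi))) →
      ∃ k₀ : ℕ, ∀ k : ℕ, k₀ ≤ k → ∀ (z : ℂ) (R : ℝ), Accommodates (closedBall z R)
        (fun _ : Fin k => closedBall (0 : ℂ) (1 / (2 * Real.pi))) →
      Accommodates (closedBall z R) (fun _ : Fin k => K)) ∧
    (∀ k : ℕ, 1 ≤ k →
      rho k ≤ bigR k ∧ bigR k ≤ rho k + 11001 * (k : ℝ) ^ (1 / 3 : ℝ)) ∧
    Tendsto (fun k : ℕ => rho k / √(k : ℝ)) atTop (nhds (√(√3 / (2 * Real.pi ^ 3)))) ∧
    Tendsto (fun k : ℕ => bigR k / √(k : ℝ)) atTop (nhds (√(√3 / (2 * Real.pi ^ 3)))) ∧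
    Tendsto (fun k : ℕ => bigR k / rho k) atTop (nhds 1) := by
  refine ⟨fun ε hε => ?_, fun _ hk z _ hR K hK => upper hk hR K hK z, fun _ hk _ _ h => lower hk h,
    fun ε hε => far_P hε, fun K hK hnd => copies hK hnd,
    fun _ hk => ⟨(main hk).2.1, (main hk).2.2.2⟩, tendsto_rho, tendsto_bigR, tendsto_ratio⟩
  obtain ⟨c, C, hc, hc2, hC, H⟩ := far_main hε
  exact ⟨c, C, hc, hc2, hC, fun k hk K hK z R hR => H k hk K hK _ le_rfl z R hR⟩

end Pool.Agent.Results.MP_0e91ac_co.FarFamilies
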