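import Pool.Agent.Helper16.Disk7.Main

/-!
# The statement `(P_7)` is false

A disk of radius `3 / (2 * π)` accommodates seven disks of perimeter `1`, but it does not
accommodate seven copies of a suitable convex set of perimeter `1`.
-/

namespace Pool.Agent.Results.MP_0e91ac_co.SevenFails

open Pool.Agent.Helper16.Disk7 Metric

/-- The statement `(P_7)` is false.  More precisely there is a convex set `K` of perimeter `1`
such that the closed disk of radius `3 / (2 * π)` does not accommodate seven copies of `K`,
although it accommodates seven disks of perimeter `1`. -/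
theorem result :
    ¬ P 7 ∧
    ∃ K : Set ℂ, IsUnitConvexSet K ∧
      Accommodates (closedBall (0 : ℂ) (3 / (2 * Real.pi)))
        (fun _ : Fin 7 => closedBall (0 : ℂ) (1 / (2 * Real.pi))) ∧
      ¬ Accommodates (closedBall (0 : ℂ) (3 / (2 * Real.pi))) (fun _ : Fin 7 => K) := by
  have hs : 0 < 1 / (2 * Real.pi) := by positivity
  have h1 : 3 * (1 / (2 * Real.pi)) = 3 / (2 * Real.pi) := by ring
  have h2 := seven_disks (1 / (2 * Real.pi)) hs
  have h3 := not_accommodates (1 / (2 * Real.pi)) hs
  rw [h1] at h2 h3
  exact ⟨fun hP => h3 (hP 0 _ h2 _ fun _ => isUnitConvexSet_body),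
    _, isUnitConvexSet_body, h2, h3⟩

end Pool.Agent.Results.MP_0e91ac_co.SevenFails
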