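import Pool.Agent.Helper84.MI.CW

/-!
# `(P_k)` for convex sets of small diameter, `3 ≤ k ≤ 9`

A convex set of perimeter `1` has diameter between `1 / π = 0.3183…` (the sets of constant width)
and `1 / 2` (the segments). Here it is proved, for every `k` from `3` to `9`, that every closed
disk which accommodates `k` disks of perimeter `1` accommodates every family of `k` convex sets of
perimeter `1` with diameters at most `δ_k`, where `δ_k = 0.32` for `k = 4, 5, 6, 8, 9` and
`δ_k = 1 / π` for `k = 3, 7` (for these two `k` the statement `(P_k)` is false for general sets).

Main steps. `n = k` for `k ≤ 6` and `n = k - 1` for `k = 8, 9` (a ring of `n` sets and, in the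
second case, a central set), `R = 1 + 1 / sin (π / n)` in units in which the perimeter is `2π`.
* The positions of a polygon `K` in a disk of radius `R` touching its boundary correspond to the
  boundary points of the set of the centres of the disks of radius `R` which contain `K`; they
  are weighted by the arc length.
* Mean value inequality: for two such polygons the mean over the pairs of positions of the cosine
  of the contact angle is at least `cos (2π / n)`. It follows from an exact kinematic formula, the
  isoperimetric-type bound of the area of a difference of two convex sets averaged over the
  rotations (Wirtinger's inequality for inscribed polygons) and the bound of the perimeter of the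
  set of the centres.
* A choice of the positions in a cyclic chain of `n ≥ 5` sets with large sum of the cosines of the
  contact angles; for `n = 4` also the order of the four sets is chosen.
* If the diameter is at most `2.0107` and the widths at least `1.85` then the sets so placed around
  the disk have pairwise disjoint interiors, also the ones which are not neighbours.
* Limits of packings, approximation by polygons.
-/

namespace Pool.Agent.Results.MP_0e91ac_co.SmallDiameter

open Pool.Agent.Helper16.Disk7 Metric

/-- For `3 ≤ k ≤ 9`, every closed disk which accommodates `k` disks of perimeter `1` accommodates
every family of `k` convex sets of perimeter `1` with diameters at most `0.32`; for `k = 3` and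
`k = 7`, with diameters at most `1 / π`. -/
theorem result (k : ℕ) (h3 : 3 ≤ k) (h9 : k ≤ 9) (c : ℂ) (R : ℝ)
    (h : Accommodates (closedBall c R)
      (fun _ : Fin k => closedBall (0 : ℂ) (1 / (2 * Real.pi))))
    (K : Fin k → Set ℂ) (hK : ∀ i, IsUnitConvexSet (K i) ∧ ∀ x ∈ K i, ∀ y ∈ K i,
      dist x y ≤ if k = 3 ∨ k = 7 then 1 / Real.pi else 0.32) :
    Accommodates (closedBall c R) K :=
  Pool.Agent.Helper84.MI.small_diameter_all h3 h9 c R h K hK

end Pool.Agent.Results.MP_0e91ac_co.SmallDiameter
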