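import Pool.Agent.Helper72.Disk3.Main
import Pool.Agent.Helper16.Disk7.Sanity

/-!
# The statement `(P_3)` is false

The least disk which accommodates three disks of perimeter `1` has radius
`(1 + 2 / √3) / (2 * π)`. It does not accommodate two disks of perimeter `1` together with a
suitable convex set of perimeter `1`, whose support function is
`(1 + ε cos (11 θ) + b cos (22 θ)) / (2 * π)` with `ε = 1 / 10000` and `b = 132 / 10 ^ 9`.
-/

namespace Pool.Agent.Results.MP_0e91ac_co.ThreeFails

open Pool.Agent.Helper16.Disk7 Pool.Agent.Helper72.Disk3 Metric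

/-- The statement `(P_3)` is false.  More precisely there is a convex set `K` of perimeter `1`
such that the closed disk of radius `(1 + 2 / √3) / (2 * π)` accommodates three disks of
perimeter `1`, but does not accommodate `K` and two disks of perimeter `1`. -/
theorem result :
    ¬ P 3 ∧
    ∃ K : Set ℂ, IsUnitConvexSet K ∧
      Accommodates (closedBall (0 : ℂ) ((1 + 2 / √3) / (2 * Real.pi)))
        (fun _ : Fin 3 => closedBall (0 : ℂ) (1 / (2 * Real.pi))) ∧
      ¬ Accommodates (closedBall (0 : ℂ) ((1 + 2 / √3) / (2 * Real.pi)))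
        ![K, closedBall (0 : ℂ) (1 / (2 * Real.pi)), closedBall (0 : ℂ) (1 / (2 * Real.pi))] := by
  have hs : 0 < 1 / (2 * Real.pi) := by positivity
  have h1 : (1 + 2 / √3) * (1 / (2 * Real.pi)) = (1 + 2 / √3) / (2 * Real.pi) := by ring
  have h2 := three_disks (1 / (2 * Real.pi)) hs
  have h3 := Pool.Agent.Helper72.Disk3.not_accommodates (1 / (2 * Real.pi)) hs
  rw [h1] at h2 h3
  refine ⟨fun hP => h3 (hP 0 _ h2 _ fun i => ?_),
    _, Pool.Agent.Helper72.Disk3.isUnitConvexSet_body, h2, h3⟩
  fin_cases i
  · exact Pool.Agent.Helper72.Disk3.isUnitConvexSet_body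
  · exact isUnitConvexSet_disk
  · exact isUnitConvexSet_disk

end Pool.Agent.Results.MP_0e91ac_co.ThreeFails
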